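import Pool.Agent.Run7.h717.SA.Iface

/-! # Measurable cones (helper324, for project SA of helper717) -/

set_option autoImplicit false

open MeasureTheory ProbabilityTheory Filter Topology Pool.Agent.Run7.h717.SA
open scoped ENNReal

namespace Pool.Agent.Run7.h324.SA

/-- the matrix with rows `x j` -/
def mt {d : ℕ} (x : Fin d → E d) : Matrix (Fin d) (Fin d) ℝ := Matrix.of fun j i => x j i

/-- the coefficients -/
noncomputable def cf {d : ℕ} (x : Fin d → E d) (y : E d) (i : Fin d) : ℝ :=
  (mt x).det⁻¹ * ∑ k, y k * (mt x).adjugate k i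

/-- the measurable cone -/
def cone {d : ℕ} (x : Fin d → E d) : Set (E d) := {y | ∀ i, 0 ≤ cf x y i}

theorem det_ne {d : ℕ} (x : Fin d → E d) : LinearIndependent ℝ x ↔ (mt x).det ≠ 0 := by
  have h1 : LinearIndependent ℝ x ↔ LinearIndependent ℝ (mt x).row := by
    let e : E d ≃ₗ[ℝ] (Fin d → ℝ) := WithLp.linearEquiv 2 ℝ (Fin d → ℝ)
    have : (mt x).row = e ∘ x := by
      funext j
      rfl
    rw [this]
    exact (LinearMap.linearIndependent_iff_of_injOn e.toLinearMap e.injective.injOn).symm
  rw [h1, Matrix.linearIndependent_rows_iff_isUnit, Matrix.isUnit_iff_isUnit_det, isUnit_iff_ne_zero]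

theorem cont_mt {d : ℕ} : Continuous (mt (d := d)) := by
  refine continuous_matrix fun j i => ?_
  change Continuous fun x : Fin d → E d => x j i
  fun_prop

theorem meas_cf {d : ℕ} (i : Fin d) :
    Measurable fun p : (Fin d → E d) × E d => cf p.1 p.2 i := by
  have hM : Continuous fun p : (Fin d → E d) × E d => mt p.1 := cont_mt.comp continuous_fst
  unfold cf
  refine Measurable.mul ?_ ?_
  · exact (hM.matrix_det.measurable).inv
  · refine Continuous.measurable ?_
    refine continuous_finsetSum _ fun k _ => ?_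
    refine Continuous.mul ?_ ?_
    · change Continuous fun p : (Fin d → E d) × E d => p.2 k
      fun_prop
    · exact hM.matrix_adjugate.matrix_elem k i

theorem meas_cone {d : ℕ} : MeasurableSet {p : (Fin d → E d) × E d | p.2 ∈ cone p.1} := by
  have : {p : (Fin d → E d) × E d | p.2 ∈ cone p.1} =
      ⋂ i, {p : (Fin d → E d) × E d | 0 ≤ cf p.1 p.2 i} := by
    ext p
    simp [cone]
  rw [this]
  exact MeasurableSet.iInter fun i => measurableSet_le measurable_const (meas_cf i)

theorem meas_cone' {d : ℕ} (x : Fin d → E d) : MeasurableSet (cone x) := by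
  have := (meas_cone (d := d)).preimage (f := fun y => (x, y)) (by fun_prop)
  exact this

theorem meas_LI {d : ℕ} : MeasurableSet {x : Fin d → E d | LinearIndependent ℝ x} := by
  have : {x : Fin d → E d | LinearIndependent ℝ x} = {x | (mt x).det ≠ 0} := by
    ext x
    exact det_ne x
  rw [this]
  exact (measurableSet_singleton (0:ℝ)).compl.preimage (cont_mt.matrix_det.measurable)

theorem cone_eq {d : ℕ} {x : Fin d → E d} (hx : LinearIndependent ℝ x) : pos x = cone x := by
  have hd : (mt x).det ≠ 0 := (det_ne x).1 hx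
  have h1 : ∀ c : Fin d → ℝ, ∀ i, cf x (∑ j, c j • x j) i = c i := by
    intro c i
    unfold cf
    have e1 : ∀ k, (∑ j, c j • x j : E d) k = ∑ j, c j * mt x j k := by
      intro k
      simp [mt]
    have e2 : ∑ k, (∑ j, c j • x j : E d) k * (mt x).adjugate k i =
        ∑ j, c j * (mt x * (mt x).adjugate) j i := by
      simp only [e1, Matrix.mul_apply, Finset.sum_mul, Finset.mul_sum]
      rw [Finset.sum_comm]
      exact Finset.sum_congr rfl fun _ _ => Finset.sum_congr rfl fun _ _ => by ring
    rw [e2, Matrix.mul_adjugate]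
    simp only [Matrix.smul_apply, Matrix.one_apply, smul_eq_mul, mul_ite, mul_one, mul_zero,
      Finset.sum_ite_eq', Finset.mem_univ, if_true]
    field_simp
  have h2 : ∀ y : E d, ∃ c : Fin d → ℝ, y = ∑ j, c j • x j := by
    intro y
    have hs : Submodule.span ℝ (Set.range x) = ⊤ := by
      apply hx.span_eq_top_of_card_eq_finrank'
      simp
    have : y ∈ Submodule.span ℝ (Set.range x) := by rw [hs]; trivial
    obtain ⟨c, hc⟩ := (Submodule.mem_span_range_iff_exists_fun ℝ).1 this
    exact ⟨c, hc.symm⟩
  ext y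
  constructor
  · rintro ⟨c, hc, rfl⟩ i
    rw [h1]
    exact hc i
  · intro hy
    obtain ⟨c, rfl⟩ := h2 y
    exact ⟨c, fun i => by rw [← h1 c i]; exact hy i, rfl⟩

instance {n d : ℕ} : IsProbabilityMeasure (GG n d) := by
  unfold GG
  infer_instance

/-- the measurable version of the angle -/
noncomputable def aa {d : ℕ} (ν : Measure (E d)) (x : Fin d → E d) : ℝ := ν.real (cone x)

theorem meas_aa {d : ℕ} (ν : Measure (E d)) [SFinite ν] : Measurable (aa ν) := by
  unfold aa Measure.real
  exact (measurable_measure_prodMk_left (ν := ν) (meas_cone (d := d))).ennreal_toReal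

end Pool.Agent.Run7.h324.SA
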