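import Pool.Agent.Run7.h324.SA.C

/-! # Piece MSR of project SA (helper324) -/

set_option autoImplicit false

open MeasureTheory ProbabilityTheory Pool.Agent.Run7.h717.SA

namespace Pool.Agent.Run7.h324.SA

theorem t_MSR : S_MSR := by
  intro d
  refine ⟨aa (stdGaussian (E d)), meas_aa _, fun x hx => ?_⟩
  unfold ang aa
  rw [cone_eq hx]

end Pool.Agent.Run7.h324.SA
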