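import Pool.Agent.Run7.h324.SA.C

/-! # Piece POW of project SA (helper324) -/

set_option autoImplicit false

open MeasureTheory ProbabilityTheory Filter Topology Pool.Agent.Run7.h717.SA
open scoped ENNReal

namespace Pool.Agent.Run7.h324.SA

theorem t_POW (hLI : S_LI) : S_POW := by
  intro d k
  have hae : ∀ᵐ x ∂(GG d d), LinearIndependent ℝ x := hLI d d le_rfl
  set A' : Set ((Fin d → E d) × (Fin k → E d)) := {p | ∀ j, p.2 j ∈ cone p.1} with hA'def
  have hA' : MeasurableSet A' := by
    have : A' = ⋂ j, (fun p : (Fin d → E d) × (Fin k → E d) => (p.1, p.2 j)) ⁻¹'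
        {p : (Fin d → E d) × E d | p.2 ∈ cone p.1} := by
      ext p
      simp [hA'def]
    rw [this]
    exact MeasurableSet.iInter fun j => (meas_cone (d := d)).preimage (by fun_prop)
  have h1 : ((GG d d).prod (GG k d)).real {p | ∀ j, p.2 j ∈ pos p.1} =
      ((GG d d).prod (GG k d)).real A' := by
    unfold Measure.real
    congr 1
    apply measure_congr
    have : ∀ᵐ p ∂((GG d d).prod (GG k d)), LinearIndependent ℝ p.1 :=
      Measure.quasiMeasurePreserving_fst.ae hae
    filter_upwards [this] with p hp
    change (∀ j, p.2 j ∈ pos p.1) = (∀ j, p.2 j ∈ cone p.1)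
    rw [cone_eq hp]
  have h2 : ((GG d d).prod (GG k d)) A' =
      ∫⁻ x, (stdGaussian (E d) (cone x)) ^ k ∂(GG d d) := by
    rw [Measure.prod_apply hA']
    apply lintegral_congr
    intro x
    have e : Prod.mk x ⁻¹' A' = Set.pi Set.univ (fun _ : Fin k => cone x) := by
      ext y
      simp [hA'def]
    rw [e]
    unfold GG
    rw [Measure.pi_pi]
    simp
  rw [h1]
  unfold Measure.real
  rw [h2, ← integral_toReal]
  · unfold mm
    apply integral_congr_ae
    filter_upwards [hae] with x hx
    unfold ang Measure.real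
    rw [cone_eq hx, ENNReal.toReal_pow]
  · exact ((measurable_measure_prodMk_left (meas_cone (d := d))).pow_const k).aemeasurable
  · exact Eventually.of_forall fun x => ENNReal.pow_lt_top (measure_lt_top _ _)

end Pool.Agent.Run7.h324.SA
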