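import Pool.Agent.Run7.h324.SA.C

/-! # Piece SPH of project SA (helper324) -/

set_option autoImplicit false

open MeasureTheory ProbabilityTheory Filter Topology Pool.Agent.Run7.h717.SA
open scoped ENNReal

namespace Pool.Agent.Run7.h324.SA

/-- normalisation -/
noncomputable def nm {d : ℕ} (y : E d) : E d := ‖y‖⁻¹ • y

theorem meas_nm {d : ℕ} : Measurable (nm (d := d)) := by
  unfold nm
  fun_prop

theorem pos_nm {d : ℕ} (x : Fin d → E d) (hx : ∀ i, x i ≠ 0) :
    pos (fun i => nm (x i)) = pos x := by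
  ext y
  constructor
  · rintro ⟨c, hc, rfl⟩
    refine ⟨fun i => c i * ‖x i‖⁻¹, fun i => mul_nonneg (hc i) (by positivity), ?_⟩
    refine Finset.sum_congr rfl fun i _ => ?_
    change c i • (‖x i‖⁻¹ • x i) = (c i * ‖x i‖⁻¹) • x i
    rw [smul_smul]
  · rintro ⟨c, hc, rfl⟩
    refine ⟨fun i => c i * ‖x i‖, fun i => mul_nonneg (hc i) (by positivity), ?_⟩
    refine Finset.sum_congr rfl fun i _ => ?_
    have : ‖x i‖ ≠ 0 := norm_ne_zero_iff.2 (hx i)
    change c i • x i = (c i * ‖x i‖) • (‖x i‖⁻¹ • x i)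
    rw [smul_smul, mul_assoc, mul_inv_cancel₀ this, mul_one]

theorem nm_mem {d : ℕ} (x : Fin d → E d) (y : E d) : nm y ∈ pos x ↔ y ∈ pos x := by
  by_cases hy : y = 0
  · subst hy
    simp [nm]
  · have hn : ‖y‖ ≠ 0 := norm_ne_zero_iff.2 hy
    constructor
    · rintro ⟨c, hc, h⟩
      refine ⟨fun i => ‖y‖ * c i, fun i => mul_nonneg (by positivity) (hc i), ?_⟩
      have this : y = ‖y‖ • nm y := by
        change y = ‖y‖ • (‖y‖⁻¹ • y)
        rw [smul_smul, mul_inv_cancel₀ hn, one_smul]
      calc y = ‖y‖ • nm y := this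
        _ = ‖y‖ • ∑ i, c i • x i := by rw [h]
        _ = ∑ i, (‖y‖ * c i) • x i := by
          rw [Finset.smul_sum]
          exact Finset.sum_congr rfl fun i _ => by rw [smul_smul]
    · rintro ⟨c, hc, h⟩
      refine ⟨fun i => ‖y‖⁻¹ * c i, fun i => mul_nonneg (by positivity) (hc i), ?_⟩
      calc nm y = ‖y‖⁻¹ • y := rfl
        _ = ‖y‖⁻¹ • ∑ i, c i • x i := by rw [← h]
        _ = ∑ i, (‖y‖⁻¹ * c i) • x i := by
          rw [Finset.smul_sum]
          exact Finset.sum_congr rfl fun i _ => by rw [smul_smul]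

theorem li_nm {d : ℕ} (x : Fin d → E d) (hx : LinearIndependent ℝ x) :
    LinearIndependent ℝ fun i => nm (x i) := by
  have h : ∀ i, ‖x i‖⁻¹ ≠ 0 := fun i => inv_ne_zero (norm_ne_zero_iff.2 (hx.ne_zero i))
  exact hx.units_smul (fun i => Units.mk0 _ (h i))

theorem t_SPH (hU : S_UNI) (hLI : S_LI) : S_SPH := by
  intro d hd
  have hU' : (stdGaussian (E d)).map nm = unif d := hU d hd
  haveI : IsProbabilityMeasure (unif d) := by
    rw [← hU']
    exact Measure.isProbabilityMeasure_map meas_nm.aemeasurable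
  have hae : ∀ᵐ x ∂(GG d d), LinearIndependent ℝ x := hLI d d le_rfl
  have hpi : (GG d d).map (fun x i => nm (x i)) = Measure.pi fun _ : Fin d => unif d := by
    unfold GG
    rw [Measure.pi_map_pi (fun _ => meas_nm.aemeasurable)]
    simp only [hU']
  have hf : Measurable fun (x : Fin d → E d) i => nm (x i) := by
    refine measurable_pi_lambda _ fun i => meas_nm.comp (measurable_pi_apply i)
  have hae2 : ∀ᵐ x ∂(Measure.pi fun _ : Fin d => unif d), LinearIndependent ℝ x := by
    rw [← hpi, ae_map_iff hf.aemeasurable meas_LI]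
    filter_upwards [hae] with x hx
    exact li_nm x hx
  have hs1 : AEMeasurable (solid (d := d)) (Measure.pi fun _ : Fin d => unif d) := by
    refine ⟨aa (unif d), meas_aa _, ?_⟩
    filter_upwards [hae2] with x hx
    unfold solid aa
    rw [cone_eq hx]
  have hs2 : AEMeasurable (fun x : Fin d → E d => ang x) (GG d d) := by
    refine ⟨aa (stdGaussian (E d)), meas_aa _, ?_⟩
    filter_upwards [hae] with x hx
    unfold ang aa
    rw [cone_eq hx]
  refine ⟨hs1, hs2, ?_⟩
  rw [← hpi] at hs1 ⊢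
  rw [AEMeasurable.map_map_of_aemeasurable hs1 hf.aemeasurable]
  apply Measure.map_congr
  filter_upwards [hae] with x hx
  change solid (fun i => nm (x i)) = ang x
  unfold solid ang
  rw [pos_nm x hx.ne_zero, ← hU']
  unfold Measure.real
  rw [Measure.map_apply meas_nm (by rw [cone_eq hx]; exact meas_cone' x)]
  congr 2
  ext y
  exact nm_mem x y

end Pool.Agent.Run7.h324.SA
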